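import Pool.Agent.TH652.CX.All

/-!
# The rank-one abelian Stark conjecture as a statement on primes and units

`H / K` is a finite abelian extension of number fields with group `G`, `S` a finite set of places of
`K` which contains the archimedean places and the places ramified in `H`, and `𝔭 ∈ S` an archimedean
place which splits totally in `H`. We assume that `K` has at least two archimedean places; for the
other fields `ℚ` and the imaginary quadratic ones the conjecture is a theorem of Stark. The elements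
of `U^T_{S,H}` are then units of `𝓞 H`.

For `h ∈ G` and real `γ`, `A` and `T > 0` let `C_h(T)` be the finite sum

`C_h(T) = ∑_{v ∉ S, k ≥ 1, Frob_v^k = h, k log q_v ≤ e^{A T}} 1/k · e^{iγt} / Γ(1 + t)`,
`t = k log q_v / T`,

and let `Z_g(T)` be the coefficient at `g` of `T e^{-Λ_γ} exp (∑_h C_h(T) [h])` in the group algebra
`ℂ[G]`, with the constant `Λ_γ` below. Only the norms and the Frobenius elements of finitely many primes
enter. We show for `γ > π / 2` and `A > 1` that the conjecture of Stark in the form of Tate for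
`H / K`, `S` and `𝔭` holds if and only if, for arbitrarily large `T`, the vectors `(-W Z_g(T))_g` come
arbitrarily close to the vectors `(log |g(ε)|_𝔓)_g` of elements `ε` of `U^T_{S,H}` with
`H(ε^{1/W}) / K` abelian. If this is so, then one and the same `ε` has distance `O(1/T)` for all large
`T`.

The facts on the functions `L_S(χ, s)` which enter are the meromorphic continuation along the
half-line `[0, ∞)` and the vanishing at `s = 0` (Hecke); no hypothesis on the zeros is made.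
-/

set_option autoImplicit false

open Filter Topology NumberField IsDedekindDomain

namespace Pool.Agent.Results.MP_ca56d1_nt.UnitFromPrimes

/-- `Λ_γ = ∫_0^∞ (e^{-t} - e^{iγt} / Γ(1 + t)) dt / t`. -/
noncomputable def Lam (γ : ℝ) : ℂ := ∫ t in Set.Ioi (0 : ℝ),
  (Complex.exp (-(t : ℂ)) - Complex.exp ((γ * t : ℝ) * Complex.I) *
    ((Real.Gamma (1 + t))⁻¹ : ℝ)) / t

section
variable {K : Type} [Field K] [NumberField K]

/-- The prime `v` of `K` is unramified in the Galois extension `H` and `g` is a Frobenius element at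
`v`: there is a maximal ideal `Q` of `𝓞 H` above `v` whose square does not contain `v` such that
`g x ≡ x ^ q_v` modulo `Q` for all `x`. -/
def IsUnramifiedFrobenius {H : Type} [Field H] [NumberField H] [Algebra K H]
    (v : HeightOneSpectrum (𝓞 K)) (g : H ≃ₐ[K] H) : Prop :=
  ∃ Q : Ideal (𝓞 H), Q.IsMaximal ∧ Q.comap (algebraMap (𝓞 K) (𝓞 H)) = v.asIdeal ∧
    ¬ v.asIdeal.map (algebraMap (𝓞 K) (𝓞 H)) ≤ Q ^ 2 ∧
    ∀ x : 𝓞 H, g • x - x ^ Ideal.absNorm v.asIdeal ∈ Q

variable {G : Type} [Group G]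

open Classical in
/-- `L_S(χ, s) = ∏_{v ∉ S} (1 - χ(Frob_v) q_v^{-s})⁻¹`, for the finite primes `v`. -/
noncomputable def lS (S : Finset (HeightOneSpectrum (𝓞 K))) (Fr : HeightOneSpectrum (𝓞 K) → G)
    (χ : G →* ℂˣ) (s : ℂ) : ℂ :=
  ∏' v : HeightOneSpectrum (𝓞 K), if v ∈ S then 1 else
    (1 - χ (Fr v) * (Ideal.absNorm v.asIdeal : ℂ) ^ (-s))⁻¹

/-- The partial zeta function `ζ_S(g, s) = 1/|G| ∑_χ χ(g)⁻¹ L_S(χ, s)`; the functions `L χ` are the
continuations of the `L_S(χ, s)`. -/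
noncomputable def zetaS [Fintype (G →* ℂˣ)] (L : (G →* ℂˣ) → ℂ → ℂ) (g : G) (s : ℂ) : ℂ :=
  (Nat.card G : ℂ)⁻¹ * ∑ χ : G →* ℂˣ, (((χ g)⁻¹ : ℂˣ) : ℂ) * L χ s

/-- The term `1/k · e^{iγt} / Γ(1 + t)`, `t = k log q_v / T`, of the prime power `v ^ k`, `v = x.1`,
`k = x.2 + 1`. -/
noncomputable def term (γ T : ℝ) (x : HeightOneSpectrum (𝓞 K) × ℕ) : ℂ :=
  ((1 / ((x.2 + 1) *
    Real.Gamma (1 + (x.2 + 1) * Real.log (Ideal.absNorm x.1.asIdeal : ℝ) / T)) : ℝ) : ℂ) *
    Complex.exp ((γ * ((x.2 + 1) * Real.log (Ideal.absNorm x.1.asIdeal : ℝ) / T) : ℝ) * Complex.I)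

variable (K) in
/-- The prime powers `v ^ k`, `k = x.2 + 1`, with `log (q_v ^ k) ≤ e^{A T}`. -/
def cutoff (A T : ℝ) : Set (HeightOneSpectrum (𝓞 K) × ℕ) :=
  {x | (x.2 + 1) * Real.log (Ideal.absNorm x.1.asIdeal : ℝ) ≤ Real.exp (A * T)}

open Classical in
/-- `C_h(T)`, the finite sum over the prime powers `v ^ k`, `v ∉ S`, with `Frob_v ^ k = h` and
`log (q_v ^ k) ≤ e^{A T}`. -/
noncomputable def frobSum (S : Finset (HeightOneSpectrum (𝓞 K)))
    (Fr : HeightOneSpectrum (𝓞 K) → G) (A γ T : ℝ) (h : G) : ℂ :=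
  ∑ᶠ x ∈ cutoff K A T, if x.1 ∉ S ∧ Fr x.1 ^ (x.2 + 1) = h then term γ T x else 0

/-- `Z_g(T)`, the coefficient at `g` of `T e^{-Λ_γ} exp (∑_h C_h(T) [h])` in the group algebra
`ℂ[G]`. -/
noncomputable def approx [Fintype G] (S : Finset (HeightOneSpectrum (𝓞 K)))
    (Fr : HeightOneSpectrum (𝓞 K) → G) (A γ T : ℝ) (g : G) : ℂ :=
  T * Complex.exp (-Lam γ) * ∑' n : ℕ,
    ((∑ h, MonoidAlgebra.single h (frobSum S Fr A γ T h) : MonoidAlgebra ℂ G) ^ n).coeff g /
      (n.factorial : ℂ)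

end

section
variable (K : Type) {H : Type} [Field K] [NumberField K] [Field H] [NumberField H] [Algebra K H]

/-- The set `U^T_{S,H}` for the archimedean place `𝔭` of `K` below `𝔓`, where `K` has at least two
archimedean places and `S` is the set of the finite places in the set `S` of the problem. As all `α`
in this set satisfy `|α|_𝔔 = 1` for the finite `𝔔`, they are units of `𝓞 H`. The condition is that
`|α|_𝔔` is the same for all archimedean `𝔔` above the same place of `K` other than `𝔭`, and equal to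
`1` if `T = S \ {𝔭}` has at least two elements, that is, if `S` contains a finite place or `K` has at
least three archimedean places. -/
def uTS (S : Finset (HeightOneSpectrum (𝓞 K))) (𝔓 : InfinitePlace H) : Set (𝓞 H)ˣ :=
  {α | (∀ w w' : InfinitePlace H, w.comap (algebraMap K H) ≠ 𝔓.comap (algebraMap K H) →
      w'.comap (algebraMap K H) = w.comap (algebraMap K H) →
      w ((α : 𝓞 H) : H) = w' ((α : 𝓞 H) : H)) ∧
    (S.Nonempty ∨ 3 ≤ Fintype.card (InfinitePlace K) →
      ∀ w : InfinitePlace H, w.comap (algebraMap K H) ≠ 𝔓.comap (algebraMap K H) →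
        w ((α : 𝓞 H) : H) = 1)}

/-- `H(α^{1/W}) / K` is an abelian extension; `W` is the number of the roots of unity in `H`. -/
def HasAbelianRoot (α : (𝓞 H)ˣ) : Prop :=
  ∀ y : AlgebraicClosure H, y ^ Units.torsionOrder H =
      algebraMap H (AlgebraicClosure H) ((α : 𝓞 H) : H) →
    IsAbelianGalois K (IntermediateField.adjoin H {y})

/-- `log |x|_w` for the normalised absolute value at the archimedean place `w`. -/
noncomputable def logAbs (w : InfinitePlace H) (x : H) : ℝ := w.mult * Real.log (w x)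

end

/-- **Stark's conjecture in the form of Tate, for given `H / K`, `S` and `𝔭`, as a statement on the
approximation of finite sums over primes by logarithms of units.** -/
theorem result (K H : Type) [Field K] [NumberField K] [Field H] [NumberField H] [Algebra K H]
    [IsAbelianGalois K H] [Fintype (H ≃ₐ[K] H)] [Fintype ((H ≃ₐ[K] H) →* ℂˣ)]
    (hK : 2 ≤ Fintype.card (InfinitePlace K)) (S : Finset (HeightOneSpectrum (𝓞 K)))
    (Fr : HeightOneSpectrum (𝓞 K) → (H ≃ₐ[K] H))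
    (_hFr : ∀ v ∉ S, IsUnramifiedFrobenius v (Fr v))
    (𝔓 : InfinitePlace H)
    (_hsplit : ∀ w : InfinitePlace H, w.comap (algebraMap K H) = 𝔓.comap (algebraMap K H) →
      InfinitePlace.IsUnramified K w)
    (L : ((H ≃ₐ[K] H) →* ℂˣ) → ℂ → ℂ) (σ₁ : ℝ)
    (hmer : ∀ χ, ∀ x : ℝ, 0 ≤ x → MeromorphicAt (L χ) (x : ℂ))
    (hL : ∀ χ, ∀ s : ℂ, σ₁ < s.re → L χ s = lS S Fr χ s)
    (han : ∀ χ, AnalyticAt ℂ (L χ) 0) (hvan : ∀ χ, L χ 0 = 0)
    (γ : ℝ) (hγ : Real.pi / 2 < γ) (A : ℝ) (hA : 1 < A) :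
    (∀ T : ℝ, (cutoff K A T).Finite) ∧
    List.TFAE [
      ∃ ε ∈ uTS K S 𝔓, HasAbelianRoot K ε ∧ ∀ g : H ≃ₐ[K] H,
        (logAbs 𝔓 (g ((ε : 𝓞 H) : H)) : ℂ) = -(Units.torsionOrder H : ℂ) * deriv (zetaS L g) 0,
      ∃ ε ∈ uTS K S 𝔓, HasAbelianRoot K ε ∧ ∃ C : ℝ, ∀ᶠ T : ℝ in atTop, ∀ g : H ≃ₐ[K] H,
        ‖(logAbs 𝔓 (g ((ε : 𝓞 H) : H)) : ℂ) +
          (Units.torsionOrder H : ℂ) * approx S Fr A γ T g‖ ≤ C / T,
      ∀ δ : ℝ, 0 < δ → ∀ T₀ : ℝ, ∃ T : ℝ, T₀ ≤ T ∧ ∃ ε ∈ uTS K S 𝔓, HasAbelianRoot K ε ∧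
        ∀ g : H ≃ₐ[K] H, ‖(logAbs 𝔓 (g ((ε : 𝓞 H) : H)) : ℂ) +
          (Units.torsionOrder H : ℂ) * approx S Fr A γ T g‖ < δ] := by
  classical
  have hab : ∀ a b : H ≃ₐ[K] H, a * b = b * a := fun a b =>
    (inferInstance : IsMulCommutative (H ≃ₐ[K] H)).is_comm.comm a b
  have hcfin : ∀ T : ℝ, (cutoff K A T).Finite := fun T =>
    TH652.COL.cut_finite TH652.COL.two_le_nv TH652.COL.nv_finite A T
  refine ⟨hcfin, ?_⟩
  -- the law
  have hsum : ∀ (T : ℝ) (h : H ≃ₐ[K] H), frobSum S Fr A γ T h =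
      -∑ᶠ x ∈ TH652.COL.cut TH652.COL.nv A T, (TH652.CX.iw Fr h x : ℂ) *
        TH652.COL.lterm TH652.COL.nv (TH652.CX.nB S) 0 γ T x := by
    intro T h
    unfold frobSum
    have hfin := hcfin T
    have hfin' : (TH652.COL.cut (TH652.COL.nv (K := K)) A T).Finite := hfin
    rw [finsum_mem_eq_finite_toFinset_sum _ hfin, finsum_mem_eq_finite_toFinset_sum _ hfin',
      ← Finset.sum_neg_distrib]
    refine Finset.sum_congr rfl fun x _ => ?_
    unfold TH652.CX.iw TH652.COL.lterm TH652.CX.nB term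
    by_cases hv : x.1 ∈ S
    · rw [if_neg fun h' => h'.1 hv, if_pos hv, TH652.ART.pw_one]
      simp
    · rw [if_neg hv, TH652.PR.pw_lin]
      by_cases hg : Fr x.1 ^ (x.2 + 1) = h
      · rw [if_pos ⟨hv, hg⟩, if_pos hg, mul_zero, neg_zero, Real.rpow_zero, one_mul]
        unfold TH652.COL.nv
        push_cast
        ring
      · rw [if_neg fun h' => hg h'.2, if_neg hg]
        simp
  have hF : ∀ χ, ∀ s : ℂ, σ₁ < s.re → L χ s = ∏' v, (TH652.ART.tw (TH652.CX.nB S v)
      (((χ (Fr v) : ℂˣ) : ℂ) • (1 : Module.End ℂ ℂ)) ((TH652.COL.nv v : ℂ) ^ (-s)))⁻¹ := by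
    intro χ s hs
    rw [hL χ s hs]
    unfold lS
    refine tprod_congr fun v => ?_
    unfold TH652.CX.nB
    by_cases hv : v ∈ S
    · rw [if_pos hv, if_pos hv, TH652.ART.tw_one, inv_one]
    · rw [if_neg hv, if_neg hv, TH652.PR.tw_lin]
      unfold TH652.COL.nv
      rw [Complex.ofReal_natCast]
      congr 1
      have h1 : (1 - (Ideal.absNorm v.asIdeal : ℂ) ^ (-s) • ((χ (Fr v) : ℂˣ) : ℂ) •
          (1 : Module.End ℂ ℂ)) =
          (1 - ((χ (Fr v) : ℂˣ) : ℂ) * (Ideal.absNorm v.asIdeal : ℂ) ^ (-s)) •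
            (1 : Module.End ℂ ℂ) := by
        rw [sub_smul, one_smul, smul_smul, mul_comm]
      rw [h1, LinearMap.det_smul, Module.finrank_self, pow_one, map_one, mul_one]
  have hlaw : ∀ g : H ≃ₐ[K] H, (fun T : ℝ => approx S Fr A γ T g - deriv (zetaS L g) 0)
      =O[atTop] (fun T : ℝ => 1 / T) := by
    intro g
    have h1 := TH652.CX.zeta_law hab S Fr hmer hF han hvan hγ hA g
    refine h1.congr_left fun T => ?_
    unfold approx TH652.CX.gexp
    simp only [hsum]
    rfl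
  set W : ℂ := (Units.torsionOrder H : ℂ) with hW
  have htend : ∀ g : H ≃ₐ[K] H, Tendsto (fun T : ℝ => approx S Fr A γ T g) atTop
      (𝓝 (deriv (zetaS L g) 0)) := by
    intro g
    have h1 := (hlaw g).trans_tendsto TH652.CX.inv_to_zero
    have h2 := h1.add_const (deriv (zetaS L g) 0)
    rw [zero_add] at h2
    refine h2.congr fun T => ?_
    ring
  tfae_have 1 → 2 := by
    rintro ⟨ε, hε, hab', hlog⟩
    refine ⟨ε, hε, hab', ?_⟩
    choose c hc using fun g => (hlaw g).bound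
    refine ⟨∑ g, ‖W‖ * |c g|, ?_⟩
    filter_upwards [eventually_all.2 hc, eventually_gt_atTop 0] with T hT hT0 g
    have h1 := hT g
    rw [Real.norm_eq_abs, abs_of_pos (by positivity : 0 < 1 / T)] at h1
    have h2 : (logAbs 𝔓 (g ((ε : 𝓞 H) : H)) : ℂ) + W * approx S Fr A γ T g =
        W * (approx S Fr A γ T g - deriv (zetaS L g) 0) := by
      rw [hlog g]
      ring
    rw [h2, norm_mul]
    calc ‖W‖ * ‖approx S Fr A γ T g - deriv (zetaS L g) 0‖ ≤ ‖W‖ * (|c g| * (1 / T)) := by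
          refine mul_le_mul_of_nonneg_left (h1.trans ?_) (norm_nonneg _)
          exact mul_le_mul_of_nonneg_right (le_abs_self _) (by positivity)
      _ = (‖W‖ * |c g|) / T := by ring
      _ ≤ (∑ g, ‖W‖ * |c g|) / T := by
          refine div_le_div_of_nonneg_right ?_ hT0.le
          exact Finset.single_le_sum (f := fun g => ‖W‖ * |c g|) (fun g _ => by positivity)
            (Finset.mem_univ g)
  tfae_have 2 → 3 := by
    rintro ⟨ε, hε, hab', C, hC⟩ δ hδ T₀
    have h1 : Tendsto (fun T : ℝ => C / T) atTop (𝓝 0) :=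
      tendsto_const_nhds.div_atTop tendsto_id
    obtain ⟨T, hT1, hT2, hT3⟩ := (hC.and ((h1.eventually_lt_const hδ).and
      (eventually_ge_atTop T₀))).exists
    exact ⟨T, hT3, ε, hε, hab', fun g => lt_of_le_of_lt (hT1 g) hT2⟩
  tfae_have 3 → 1 := by
    intro h
    -- the places outside the orbit of `𝔓`
    have hp : ∃ p : InfinitePlace K, p ≠ 𝔓.comap (algebraMap K H) := by
      by_contra hcon
      push Not at hcon
      have : Fintype.card (InfinitePlace K) ≤ 1 := Fintype.card_le_one_iff.2 fun a b => by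
        rw [hcon a, hcon b]
      omega
    obtain ⟨p, hp⟩ := hp
    obtain ⟨w₁, hw₁⟩ := InfinitePlace.comap_surjective (k := K) (K := H) p
    have hw₁' : w₁.comap (algebraMap K H) ≠ 𝔓.comap (algebraMap K H) := by
      intro h1
      exact hp (by rw [← h1]; exact hw₁.symm)
    have hV : ∀ ε ∈ uTS K S 𝔓, ∃ c : ℝ, ∀ w : InfinitePlace H,
        w.comap (algebraMap K H) ≠ 𝔓.comap (algebraMap K H) → w ((ε : 𝓞 H) : H) = c := by
      rintro ε ⟨h1, h2⟩
      by_cases h3 : S.Nonempty ∨ 3 ≤ Fintype.card (InfinitePlace K)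
      · exact ⟨1, h2 h3⟩
      · push Not at h3
        refine ⟨w₁ ((ε : 𝓞 H) : H), fun w hw => ?_⟩
        refine h1 w w₁ hw ?_
        by_contra h4
        have h5 : ({𝔓.comap (algebraMap K H), w.comap (algebraMap K H),
            w₁.comap (algebraMap K H)} : Finset (InfinitePlace K)).card = 3 :=
          Finset.card_eq_three.2 ⟨_, _, _, Ne.symm hw, Ne.symm hw₁', Ne.symm h4, rfl⟩
        have h6 := Finset.card_le_univ ({𝔓.comap (algebraMap K H), w.comap (algebraMap K H),
            w₁.comap (algebraMap K H)} : Finset (InfinitePlace K))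
        omega
    obtain ⟨ε, ⟨hε1, hε2⟩, hε3⟩ := TH652.CX.closed_of_finite
      (V := {ε : (𝓞 H)ˣ | ε ∈ uTS K S 𝔓 ∧ HasAbelianRoot K ε})
      (f := fun ε g => logAbs 𝔓 (g ((ε : 𝓞 H) : H)))
      (fun b => by
        refine (TH652.CX.units_finite (K := K) 𝔓 w₁ hw₁' b).subset ?_
        rintro ε ⟨⟨h1, -⟩, h2⟩
        refine ⟨hV ε h1, fun g => ?_⟩
        have h3 : |logAbs 𝔓 (g ((ε : 𝓞 H) : H))| ≤ b := h2 g
        unfold logAbs at h3
        rw [abs_mul] at h3
        have h4 : (1 : ℝ) ≤ |(𝔓.mult : ℝ)| := by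
          rw [abs_of_nonneg (Nat.cast_nonneg _)]
          exact_mod_cast InfinitePlace.mult_pos
        nlinarith [abs_nonneg (Real.log (𝔓 (g ((ε : 𝓞 H) : H))))])
      (fun g => -W * deriv (zetaS L g) 0)
      (fun δ hδ => by
        have h1 : ∀ g : H ≃ₐ[K] H, ∀ᶠ T : ℝ in atTop,
            ‖W * (approx S Fr A γ T g - deriv (zetaS L g) 0)‖ < δ / 2 := by
          intro g
          have h2 : Tendsto (fun T : ℝ => W * (approx S Fr A γ T g - deriv (zetaS L g) 0)) atTop
              (𝓝 (W * (deriv (zetaS L g) 0 - deriv (zetaS L g) 0))) :=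
            ((htend g).sub_const _).const_mul W
          rw [sub_self, mul_zero] at h2
          have h3 := h2.norm
          rw [norm_zero] at h3
          exact h3.eventually_lt_const (by positivity)
        obtain ⟨T₀, hT₀⟩ := eventually_atTop.1 (eventually_all.2 h1)
        obtain ⟨T, hT, ε, h4, h5, h6⟩ := h (δ / 2) (by positivity) T₀
        refine ⟨ε, ⟨h4, h5⟩, fun g => ?_⟩
        have h7 : (logAbs 𝔓 (g ((ε : 𝓞 H) : H)) : ℂ) - -W * deriv (zetaS L g) 0 =
            ((logAbs 𝔓 (g ((ε : 𝓞 H) : H)) : ℂ) + W * approx S Fr A γ T g) -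
              W * (approx S Fr A γ T g - deriv (zetaS L g) 0) := by ring
        rw [h7]
        have h8 := norm_sub_le ((logAbs 𝔓 (g ((ε : 𝓞 H) : H)) : ℂ) + W * approx S Fr A γ T g)
          (W * (approx S Fr A γ T g - deriv (zetaS L g) 0))
        have h9 := h6 g
        have h10 := hT₀ T hT g
        linarith)
    exact ⟨ε, hε1, hε2, hε3⟩
  tfae_finish

end Pool.Agent.Results.MP_ca56d1_nt.UnitFromPrimes
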